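import Pool.Agent.H82.RP.Defs

/-!
# Board rpw_modules, targets A: the sieve for the integers, with a bound for the level
-/

set_option autoImplicit false

open Finset Real ArithmeticFunction
open scoped Nat ArithmeticFunction.Moebius

namespace Pool.Agent.H82.RP

open Pool.Agent.H30.BV (NX As Er Sad qj PZ lv nl)
open Pool.Agent.H31.MP (RS Rgh Pz Me Om Omr Wt Lam QF V1 nu dvh)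

/-- BZQ. Choice of the truncation, with a bound. -/
def T_BZQ : Prop := ∀ L v : ℝ, 0 ≤ L → 0 < v → ∃ C : ℝ, 0 < C ∧ ∀ η : ℝ, 0 < η → η ≤ 1 →
  ∃ b : ℕ, (b : ℝ) ≤ C * (1 + Real.log (1 / η)) ∧ ∀ t : ℕ,
    ∑ j ∈ range t, L ^ (2 * (b + j) + 1) / ((2 * (b + j) + 1)! * v) ≤ η

/-- QKQ. The quotients of the levels for densities up to `K / p`, with a bound for `b`. -/
def T_QKQ : Prop := ∀ K : ℕ, ∃ C : ℝ, 0 < C ∧ ∀ η : ℝ, 0 < η → η ≤ 1 → ∃ b : ℕ,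
  (b : ℝ) ≤ C * (1 + Real.log (1 / η)) ∧ ∀ (z : ℝ) (P : Finset ℕ) (g : ℕ → ℝ),
  3 ≤ z → P ⊆ PZ z 2 → (∀ p ∈ P, 0 ≤ g p ∧ g p ≤ K / p ∧ g p ≤ 1 / 2) →
    ∑ j ∈ range (nl z), qj P (lv z) g j (b + j) ≤ η

/-- IEH. The error term for the integers, positions up to `H₀ log X`. -/
def T_IEH : Prop := ∀ (K b y₀ A : ℕ) (δ C H₀ : ℝ), 1 ≤ K → 2 * K + 2 ≤ y₀ → 0 < δ →
  δ * (4 * b + 6) ≤ 1 / 4 → 0 ≤ C → ∃ X₀ : ℝ, ∀ X : ℝ, X₀ ≤ X →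
  ∀ (Y : ℝ) (h : Fin K → ℕ) (l : (Fin K → ℕ) → ℝ), Function.Injective h →
  (∀ i, (h i : ℝ) ≤ H₀ * Real.log X) → 1 ≤ Y → Y ≤ X ^ (1 / 4 : ℝ) → Wt K (X ^ δ) Y C l →
    Er (Om X y₀) (fun n => 1 * Lam (X ^ δ) Y l h n ^ 2) (dvh h) (fun p => (nu h p : ℝ) / p)
      (NX X / primorial y₀ * QF (X ^ δ) Y l) (Pz y₀ (X ^ δ)) (lv (X ^ δ)) (fun j => b + j)
      (nl (X ^ δ)) ≤ X / Real.log X ^ A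

/-- IUQ. Both bounds for the integers. -/
def T_IUQ : Prop := ∀ K : ℕ, 1 ≤ K → ∃ C₁ : ℝ, 0 < C₁ ∧ ∀ η : ℝ, 0 < η → η ≤ 1 → ∃ b : ℕ,
  (b : ℝ) ≤ C₁ * (1 + Real.log (1 / η)) ∧ ∀ (y₀ A : ℕ) (δ C H₀ : ℝ),
  2 * K + 2 ≤ y₀ → 0 < δ → δ * (4 * b + 6) ≤ 1 / 4 → 0 ≤ C → ∃ X₀ : ℝ, ∀ X : ℝ, X₀ ≤ X →
  ∀ (Y : ℝ) (h : Fin K → ℕ) (l : (Fin K → ℕ) → ℝ), Function.Injective h →
  (∀ i, (h i : ℝ) ≤ H₀ * Real.log X) → 1 ≤ Y → Y ≤ X ^ (1 / 4 : ℝ) → Wt K (X ^ δ) Y C l →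
    (1 - η) * (NX X / primorial y₀ * V1 y₀ (X ^ δ) h * QF (X ^ δ) Y l) - X / Real.log X ^ A ≤
      ∑ n ∈ Omr X y₀ (X ^ δ) h, Lam (X ^ δ) Y l h n ^ 2 ∧
    ∑ n ∈ Omr X y₀ (X ^ δ) h, Lam (X ^ δ) Y l h n ^ 2 ≤
      (1 + η) * (NX X / primorial y₀ * V1 y₀ (X ^ δ) h * QF (X ^ δ) Y l) + X / Real.log X ^ A

/-- IGT. The same for a finite index type and weights on a small set `U`. -/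
def T_IGT : Prop := ∀ K : ℕ, ∃ C₁ : ℝ, 0 < C₁ ∧ ∀ η : ℝ, 0 < η → η ≤ 1 → ∃ b : ℕ,
  (b : ℝ) ≤ C₁ * (1 + Real.log (1 / η)) ∧ ∀ (y₀ A : ℕ) (δ C H₀ : ℝ),
  2 * K + 2 ≤ y₀ → 0 < δ → δ * (4 * b + 6) ≤ 1 / 4 → 0 ≤ C → ∃ X₀ : ℝ, ∀ X : ℝ, X₀ ≤ X →
  ∀ (I : Type) [Fintype I] [DecidableEq I] (P : I → ℕ) (U : Finset I) (Y : ℝ)
    (l : (I → ℕ) → ℝ), U.card ≤ K → Set.InjOn P U →
  (∀ i ∈ U, (P i : ℝ) ≤ H₀ * Real.log X) → 1 ≤ Y → Y ≤ X ^ (1 / 4 : ℝ) →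
  WG U (X ^ δ) Y C l →
    (1 - η) * (EE X y₀ (X ^ δ) (U.image P) * QB (X ^ δ) Y l l) - X / Real.log X ^ A ≤
      ∑ n ∈ OS X y₀ (X ^ δ) (U.image P), LG (X ^ δ) Y l P n ^ 2 ∧
    ∑ n ∈ OS X y₀ (X ^ δ) (U.image P), LG (X ^ δ) Y l P n ^ 2 ≤
      (1 + η) * (EE X y₀ (X ^ δ) (U.image P) * QB (X ^ δ) Y l l) + X / Real.log X ^ A

/-- IXX. Orthogonal weights. -/
def T_IXX : Prop := ∀ K : ℕ, ∃ C₁ : ℝ, 0 < C₁ ∧ ∀ η : ℝ, 0 < η → η ≤ 1 → ∃ b : ℕ,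
  (b : ℝ) ≤ C₁ * (1 + Real.log (1 / η)) ∧ ∀ (y₀ A : ℕ) (δ C H₀ : ℝ),
  2 * K + 2 ≤ y₀ → 0 < δ → δ * (4 * b + 6) ≤ 1 / 4 → 0 ≤ C → ∃ X₀ : ℝ, ∀ X : ℝ, X₀ ≤ X →
  ∀ (I : Type) [Fintype I] [DecidableEq I] (P : I → ℕ) (U : Finset I) (Y : ℝ)
    (l l' : (I → ℕ) → ℝ), U.card ≤ K → Set.InjOn P U →
  (∀ i ∈ U, (P i : ℝ) ≤ H₀ * Real.log X) → 1 ≤ Y → Y ≤ X ^ (1 / 4 : ℝ) →
  WG U (X ^ δ) Y C l → WG U (X ^ δ) Y C l' → QB (X ^ δ) Y l l' = 0 →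
    |∑ n ∈ OS X y₀ (X ^ δ) (U.image P), LG (X ^ δ) Y l P n * LG (X ^ δ) Y l' P n| ≤
      η * (EE X y₀ (X ^ δ) (U.image P) * (QB (X ^ δ) Y l l + QB (X ^ δ) Y l' l')) +
        X / Real.log X ^ A

open Classical in
/-- EXP. The square of a sum of pairwise orthogonal weights. -/
def T_EXP : Prop := ∀ K : ℕ, ∃ C₁ : ℝ, 0 < C₁ ∧ ∀ η : ℝ, 0 < η → η ≤ 1 → ∃ b : ℕ,
  (b : ℝ) ≤ C₁ * (1 + Real.log (1 / η)) ∧ ∀ (y₀ A : ℕ) (δ C H₀ : ℝ),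
  6 * K + 2 ≤ y₀ → 0 < δ → δ * (4 * b + 6) ≤ 1 / 4 → 0 ≤ C → ∃ X₀ : ℝ, ∀ X : ℝ, X₀ ≤ X →
  ∀ (I : Type) [Fintype I] [DecidableEq I] (P : I → ℕ) (U₀ : Finset I)
    (G : Finset (Finset I)) (Y : ℝ) (L : Finset I → (I → ℕ) → ℝ), U₀.card ≤ K →
  (∀ H ∈ G, H.card ≤ K) → Function.Injective P → (∀ i, (P i : ℝ) ≤ H₀ * Real.log X) →
  (G.card : ℝ) ≤ (H₀ * Real.log X) ^ K → 1 ≤ Y → Y ≤ X ^ (1 / 4 : ℝ) →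
  (∀ H ∈ G, WG (U₀ ∪ H) (X ^ δ) Y C (L H)) →
  (∀ H ∈ G, ∀ H' ∈ G, H ≠ H' → QB (X ^ δ) Y (L H) (L H') = 0) →
    |∑ n ∈ OS X y₀ (X ^ δ) (U₀.image P),
        (∑ H ∈ G, if RH y₀ (X ^ δ) (H.image P) n then LG (X ^ δ) Y (L H) P n else 0) ^ 2 -
      ∑ H ∈ G, EE X y₀ (X ^ δ) ((U₀ ∪ H).image P) * QB (X ^ δ) Y (L H) (L H)| ≤
    η * ∑ H ∈ G, EE X y₀ (X ^ δ) ((U₀ ∪ H).image P) * QB (X ^ δ) Y (L H) (L H) +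
    η * ∑ H ∈ G, ∑ H' ∈ G.filter (fun H' => H' ≠ H),
      EE X y₀ (X ^ δ) ((U₀ ∪ (H ∪ H')).image P) *
        (QB (X ^ δ) Y (L H) (L H) + QB (X ^ δ) Y (L H') (L H')) + X / Real.log X ^ A

end Pool.Agent.H82.RP
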