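import Pool.Agent.H82.RP.Defs

/-!
# Board rpw_modules, targets B: algebra of the weights
-/

set_option autoImplicit false

open Finset Real ArithmeticFunction
open scoped Nat ArithmeticFunction.Moebius

namespace Pool.Agent.H82.RP

open Pool.Agent.H31.MP (RS Rgh Pz Me Om Lam1 QF1)

open Classical in
/-- DGI. The diagonal form. -/
def T_DGI : Prop := ∀ (I : Type) [Fintype I] [DecidableEq I] (z Y : ℝ) (l l' : (I → ℕ) → ℝ),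
  QB z Y l l' = ∑ r ∈ BG I z Y, (∏ i, ((r i).totient : ℝ)) *
    ((∑ d ∈ BG I z Y, if ∀ i, r i ∣ d i then l d / ∏ i, (d i : ℝ) else 0) *
      (∑ d ∈ BG I z Y, if ∀ i, r i ∣ d i then l' d / ∏ i, (d i : ℝ) else 0))

open Classical in
/-- IVI. Möbius inversion. -/
def T_IVI : Prop := ∀ (I : Type) [Fintype I] [DecidableEq I] (z Y : ℝ) (y : (I → ℕ) → ℝ)
  (r : I → ℕ), r ∈ BG I z Y →
  (∑ d ∈ BG I z Y, (if ∀ i, r i ∣ d i then lG z Y y d / ∏ i, (d i : ℝ) else 0) =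
    (∏ i, ((μ (r i) : ℤ) : ℝ)) * (y r / ∏ i, ((r i).totient : ℝ))) ∧
  ∀ j : I, ∑ d ∈ BG I z Y,
    (if ∀ i, r i ∣ d i then rs j (lG z Y y) d / ∏ i, (d i : ℝ) else 0) =
    if r j = 1 then (∏ i, ((μ (r i) : ℤ) : ℝ)) *
      ((∑ a ∈ RS z Y, y (Function.update r j a) / (a.totient : ℝ)) /
        ∏ i, ((r i).totient : ℝ)) else 0

open Classical in
/-- QYI. The bilinear form in the diagonal variables. -/
def T_QYI : Prop := ∀ (I : Type) [Fintype I] [DecidableEq I] (z Y : ℝ)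
  (y y' : (I → ℕ) → ℝ),
  QB z Y (lG z Y y) (lG z Y y') = ∑ r ∈ BG I z Y, y r * y' r / ∏ i, ((r i).totient : ℝ) ∧
  ∀ (j : I) (w w' : (I → ℕ) → ℝ), (∀ r, r j ≠ 1 → y r = 0) → (∀ r, r j ≠ 1 → y' r = 0) →
    QB z Y (fun d => lG z Y y d + rs j (lG z Y w) d)
        (fun d => lG z Y y' d + rs j (lG z Y w') d) =
      ∑ r ∈ (BG I z Y).filter (fun r => r j = 1),
        (y r + ∑ a ∈ RS z Y, w (Function.update r j a) / (a.totient : ℝ)) *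
        (y' r + ∑ a ∈ RS z Y, w' (Function.update r j a) / (a.totient : ℝ)) /
          ∏ i, ((r i).totient : ℝ)

/-- RJ. One more variable. -/
def T_RJ : Prop := ∀ (I : Type) [Fintype I] [DecidableEq I] (j : I) (U : Finset I)
  (z Y D C : ℝ) (ρ : ℕ → ℝ) (l l' : (I → ℕ) → ℝ), 1 ≤ Y → 1 ≤ D → (∀ u, |ρ u| ≤ 1) →
  (∀ u, ρ u ≠ 0 → u ∈ RS z D) → 0 ≤ C → j ∉ U → WG U z Y C l → WG U z Y C l' →
    WG (insert j U) z (D * Y) C (rj j ρ l) ∧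
    QB z (D * Y) (rj j ρ l) (rj j ρ l') = QF1 z D ρ * QB z Y l l' ∧
    ∀ (P : I → ℕ) (n : ℕ),
      LG z (D * Y) (rj j ρ l) P n = Lam1 z D ρ (n + P j) * LG z Y l P n

/-- TEN. Products in separate variables. -/
def T_TEN : Prop := ∀ (A B : Type) [Fintype A] [DecidableEq A] [Fintype B] [DecidableEq B]
  (z Y Y' : ℝ), 1 ≤ Y → 1 ≤ Y' →
  ∀ (U : Finset A) (V : Finset B) (C C' : ℝ) (l k : (A → ℕ) → ℝ) (l' k' : (B → ℕ) → ℝ),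
  0 ≤ C → WG U z Y C l → WG U z Y C k → WG V z Y' C' l' → WG V z Y' C' k' →
    WG (U.disjSum V) z (Y * Y') (C * C') (ten2 l l') ∧
    QB z (Y * Y') (ten2 l l') (ten2 k k') = QB z Y l k * QB z Y' l' k' ∧
    ∀ (P : A → ℕ) (P' : B → ℕ) (n : ℕ),
      LG z (Y * Y') (ten2 l l') (Sum.elim P P') n = LG z Y l P n * LG z Y' l' P' n

/-- LBH. The size of the weights. -/
def T_LBH : Prop := ∀ (K : ℕ) (δ : ℝ), 0 < δ → ∃ C : ℝ, 0 < C ∧ ∀ (X Y : ℝ) (g : ℕ → ℝ)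
  (m : ℕ) (H : Finset (Fin m)), 2 ≤ X → 1 ≤ Y → Y ≤ X → (∀ a, 0 ≤ g a ∧ g a ≤ 1) →
  H.card ≤ K →
    WG H (X ^ δ) Y C (LH (X ^ δ) Y g H) ∧
    ∀ j, j ∉ H → WG H (X ^ δ) Y C (LE (X ^ δ) Y g K j H)

/-- QHH. Orthogonality of the weights. -/
def T_QHH : Prop := ∀ (m : ℕ) (z Y : ℝ) (g : ℕ → ℝ) (H H' : Finset (Fin m)), 1 ≤ Y →
  GH z Y g → QB z Y (LH z Y g H) (LH z Y g H') = if H = H' then qq z Y g H.card else 0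

/-- QQS. The size of the norms. -/
def T_QQS : Prop := ∀ (z Y : ℝ) (g : ℕ → ℝ) (s : ℕ), 1 < Y → GH z Y g →
  0 ≤ qq z Y g s ∧ qq z Y g s ≤ sg z Y g ^ s ∧ sg z Y g ^ s - tq z Y g s ≤ qq z Y g s ∧
  0 ≤ sg z Y g ∧ sg z Y g ≤ 1 ∧ 0 ≤ lg z Y g

/-- QEE. The weights at a prime. -/
def T_QEE : Prop := ∀ (m K : ℕ) (z Y : ℝ) (g : ℕ → ℝ) (j : Fin m) (H H' : Finset (Fin m)),
  1 < Y → GH z Y g → j ∉ H → j ∉ H' → H.card ≤ K → H'.card ≤ K →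
    (H ≠ H' → QB z Y (LE z Y g K j H) (LE z Y g K j H') = 0) ∧
    0 ≤ QB z Y (LE z Y g K j H) (LE z Y g K j H) ∧
    QB z Y (LE z Y g K j H) (LE z Y g K j H) ≤ te z Y g K H.card ∧
    QB z Y (LE z Y g K j H) (LE z Y g K j H) ≤ 1

open Classical in
/-- TPE. The function at a prime. -/
def T_TPE : Prop := ∀ (m y₀ K a n : ℕ) (z Y : ℝ) (g : ℕ → ℝ) (j : Fin m), 1 ≤ K → 1 ≤ Y →
  (∀ a, 0 ≤ g a ∧ g a ≤ 1) → j ∈ Ad y₀ a m → (n + pw a j).Prime → z < ((n + pw a j : ℕ) : ℝ) →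
  Y < ((n + pw a j : ℕ) : ℝ) →
    tw m y₀ K z Y g a n = ∑ H ∈ HS ((Ad y₀ a m).erase j) K,
      if RH y₀ z (ps a H) n then LG z Y (LE z Y g K j H) (pw a) n else 0

/-- GG. The choice of the function of one variable. -/
def T_GG : Prop := ∀ lam ε : ℝ, 0 < lam → 0 < ε → ∃ N₀ δ₁ : ℝ, 0 < N₀ ∧ 0 < δ₁ ∧
  ∀ δ : ℝ, 0 < δ → δ ≤ δ₁ → ∃ Z₀ : ℝ, ∀ Z : ℝ, Z₀ ≤ Z → ∃ g : ℕ → ℝ,
    GH (Z ^ δ) (Z ^ (1 / 8 : ℝ)) g ∧
    lam * Real.log Z * Me (Z ^ δ) * sg (Z ^ δ) (Z ^ (1 / 8 : ℝ)) g ≤ N₀ ∧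
    lam * Real.log Z * Me (Z ^ δ) * lg (Z ^ δ) (Z ^ (1 / 8 : ℝ)) g ≤
      ε * Real.log (Z ^ (1 / 8 : ℝ))

end Pool.Agent.H82.RP
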