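import Pool.Agent.H82.RP.Defs

/-!
# Board rpw_modules, targets C: densities, numerical inequalities, the expansions
-/

set_option autoImplicit false

open Finset Real ArithmeticFunction
open scoped Nat ArithmeticFunction.Moebius

namespace Pool.Agent.H82.RP

open Pool.Agent.H30.BV (NX)
open Pool.Agent.H31.MP (RS Rgh Pz Me Om UU)

/-! ## Sums of the densities -/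

/-- VRI. The density with a new point. -/
def T_VRI : Prop := ∀ (K y₀ : ℕ) (z : ℝ) (S : Finset ℕ) (e : ℕ), S.card ≤ K →
  2 * K + 4 ≤ y₀ → e ∉ S → 0 < VS y₀ z S ∧
    VS y₀ z (insert e S) ≤ VS y₀ z S * (∏ p ∈ Pz y₀ z, (1 - 1 / (p : ℝ))) * RpS y₀ e S ∧
    (1 - 2 * K / y₀) * (VS y₀ z S * ∏ p ∈ Pz y₀ z, (1 - 1 / (p : ℝ))) ≤
      VS y₀ z (insert e S)

/-- SAH. The mean value of the singular factor, positions up to `H₀ log X`. -/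
def T_SAH : Prop := ∀ (K : ℕ) (η : ℝ), 0 < η → ∃ y₁ : ℕ, ∀ y₀ : ℕ, y₁ ≤ y₀ → ∀ t H₀ : ℝ,
  0 < t → ∃ X₀ : ℝ, ∀ X : ℝ, X₀ ≤ X → ∀ (S : Finset ℕ) (a m : ℕ), S.card ≤ K →
  (∀ s ∈ S, (s : ℝ) ≤ H₀ * Real.log X) → ((a + m : ℕ) : ℝ) ≤ H₀ * Real.log X →
  t * Real.log X ≤ m →
    ∑ e ∈ (Ico a (a + m)).filter (fun e => (1 + e).Coprime (primorial y₀)), RpS y₀ e S ≤
      (1 + η) * ((primorial y₀).totient / primorial y₀) * m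

/-- VSU. The sum over the sets of `s` positions, upper bound. -/
def T_VSU : Prop := ∀ (K : ℕ) (η : ℝ), 0 < η → ∃ y₁ : ℕ, ∀ y₀ : ℕ, y₁ ≤ y₀ →
  ∀ t δ H₀ : ℝ, 0 < t → 0 < δ → ∃ X₀ : ℝ, ∀ X : ℝ, X₀ ≤ X →
  ∀ (S₀ : Finset ℕ) (m a s : ℕ) (T : Finset (Fin m)), S₀.card ≤ K → s ≤ K →
  (∀ x ∈ S₀, (x : ℝ) ≤ H₀ * Real.log X) → ((a + m : ℕ) : ℝ) ≤ H₀ * Real.log X →
  t * Real.log X ≤ m → T ⊆ Ad y₀ a m → Disjoint S₀ (ps a T) →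
    ∑ H ∈ T.powersetCard s, VS y₀ (X ^ δ) (S₀ ∪ ps a H) ≤
      ((1 + η) * (m * Me (X ^ δ))) ^ s / (s ! : ℝ) * VS y₀ (X ^ δ) S₀

/-- VSL. The sum over the sets of `s` positions, lower bound. -/
def T_VSL : Prop := ∀ (K : ℕ) (η : ℝ), 0 < η → η ≤ 1 → ∃ y₁ : ℕ, ∀ y₀ : ℕ, y₁ ≤ y₀ →
  ∀ t δ H₀ : ℝ, 0 < t → 0 < δ → ∃ X₀ : ℝ, ∀ X : ℝ, X₀ ≤ X →
  ∀ (m a s : ℕ), s ≤ K → ((a + m : ℕ) : ℝ) ≤ H₀ * Real.log X → t * Real.log X ≤ m →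
    ((1 - η) * (m * Me (X ^ δ))) ^ s / (s ! : ℝ) ≤
      ∑ H ∈ (Ad y₀ a m).powersetCard s, VS y₀ (X ^ δ) (ps a H)

/-- VCR. The crude bound for pairs. -/
def T_VCR : Prop := ∀ K : ℕ, ∃ (C : ℝ) (y₁ : ℕ), 0 < C ∧ ∀ y₀ : ℕ, y₁ ≤ y₀ →
  ∀ t δ H₀ : ℝ, 0 < t → 0 < δ → ∃ X₀ : ℝ, ∀ X : ℝ, X₀ ≤ X →
  ∀ (S₀ : Finset ℕ) (m a : ℕ) (T : Finset (Fin m)), S₀.card ≤ 2 * K →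
  (∀ x ∈ S₀, (x : ℝ) ≤ H₀ * Real.log X) → ((a + m : ℕ) : ℝ) ≤ H₀ * Real.log X →
  t * Real.log X ≤ m → T ⊆ Ad y₀ a m → Disjoint S₀ (ps a T) →
    ∑ H ∈ HS T K, ∑ H' ∈ HS T K, VS y₀ (X ^ δ) (S₀ ∪ (ps a H ∪ ps a H')) ≤
      C * (1 + m * Me (X ^ δ)) ^ (2 * K) * VS y₀ (X ^ δ) S₀

/-! ## Numerical inequality -/

/-- NUM. The choice of the number of particles. -/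
def T_NUM : Prop := ∀ ε : ℝ, 0 < ε → ∃ ε₁ : ℝ, 0 < ε₁ ∧ ∀ N₀ : ℝ, 0 < N₀ →
  ∃ K : ℕ, 1 ≤ K ∧ ∀ (η L σ ℓ lY : ℝ) (q : ℕ → ℝ), 0 ≤ η → (1 + η) ^ K ≤ 2 → 0 ≤ L → 0 ≤ σ →
  0 ≤ ℓ → 0 < lY → L * σ ≤ N₀ → L * ℓ ≤ ε₁ * lY →
  (∀ s, σ ^ s - 4 / 3 * (s * σ ^ (s - 1) * ℓ / lY) ≤ q s) →
    1 / 2 ≤ ∑ s ∈ range (K + 1), L ^ s / (s ! : ℝ) * q s ∧
    ∑ s ∈ range (K + 1), ((1 + η) * L) ^ s / (s ! : ℝ) *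
        (if s < K then 4 / 3 * (s * σ ^ (s - 1) * ℓ / lY) else σ ^ s) ≤
      ε * ∑ s ∈ range (K + 1), L ^ s / (s ! : ℝ) * q s

/-! ## The expansions -/

/-- the total mass with the intensity `L` -/
noncomputable def TT (z Y : ℝ) (g : ℕ → ℝ) (K : ℕ) (L : ℝ) : ℝ :=
  ∑ s ∈ range (K + 1), L ^ s / (s ! : ℝ) * qq z Y g s

/-- the total mass at a prime with the intensity `L` -/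
noncomputable def TE (z Y : ℝ) (g : ℕ → ℝ) (K : ℕ) (L : ℝ) : ℝ :=
  ∑ s ∈ range (K + 1), L ^ s / (s ! : ℝ) * te z Y g K s

/-- S1. The mean value. -/
def T_S1 : Prop := ∀ (K : ℕ) (η lam t : ℝ), 1 ≤ K → 0 < η → η ≤ 1 → 0 < t → t ≤ lam →
  ∃ y₁ : ℕ, ∀ y₀ : ℕ, y₁ ≤ y₀ → ∃ δ₁ : ℝ, 0 < δ₁ ∧ ∀ δ : ℝ, 0 < δ → δ ≤ δ₁ → ∀ H₀ : ℝ,
  ∃ Z₀ : ℝ, ∀ Z : ℝ, Z₀ ≤ Z → ∀ (m a : ℕ) (g : ℕ → ℝ), GH (Z ^ δ) (Z ^ (1 / 8 : ℝ)) g →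
  t * Real.log Z ≤ m → (m : ℝ) ≤ lam * Real.log Z → ((a + m : ℕ) : ℝ) ≤ H₀ * Real.log Z →
    NX Z / primorial y₀ *
        ((1 - η) * TT (Z ^ δ) (Z ^ (1 / 8 : ℝ)) g K ((1 - η) * (m * Me (Z ^ δ))) - η) ≤
      ∑ n ∈ Om Z y₀, tw m y₀ K (Z ^ δ) (Z ^ (1 / 8 : ℝ)) g a n ^ 2 ∧
    ∑ n ∈ Om Z y₀, tw m y₀ K (Z ^ δ) (Z ^ (1 / 8 : ℝ)) g a n ^ 2 ≤
      NX Z / primorial y₀ *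
        ((1 + η) * TT (Z ^ δ) (Z ^ (1 / 8 : ℝ)) g K ((1 + η) * (m * Me (Z ^ δ))) + η)

/-- S2. The primes in the window. -/
def T_S2 : Prop := ∀ (K : ℕ) (η lam t : ℝ), 1 ≤ K → 0 < η → η ≤ 1 → 0 < t → t ≤ lam →
  ∃ y₁ : ℕ, ∀ y₀ : ℕ, y₁ ≤ y₀ → ∃ δ₁ : ℝ, 0 < δ₁ ∧ ∀ δ : ℝ, 0 < δ → δ ≤ δ₁ → ∀ H₀ : ℝ,
  ∃ Z₀ : ℝ, ∀ Z : ℝ, Z₀ ≤ Z → ∀ (m a : ℕ) (g : ℕ → ℝ), GH (Z ^ δ) (Z ^ (1 / 8 : ℝ)) g →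
  t * Real.log Z ≤ m → (m : ℝ) ≤ lam * Real.log Z → ((a + m : ℕ) : ℝ) ≤ H₀ * Real.log Z →
    ∑ n ∈ (Om Z y₀).filter (fun n : ℕ => √Z < (n : ℝ)),
        tw m y₀ K (Z ^ δ) (Z ^ (1 / 8 : ℝ)) g a n ^ 2 *
          (((range m).filter (fun i => (n + (a + i)).Prime)).card : ℝ) ≤
      NX Z / primorial y₀ *
        (32 * lam * TE (Z ^ δ) (Z ^ (1 / 8 : ℝ)) g K ((1 + η) * (m * Me (Z ^ δ))) + η)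

/-- S3. Two windows. -/
def T_S3 : Prop := ∀ (K : ℕ) (η lam t : ℝ), 1 ≤ K → 0 < η → η ≤ 1 → 0 < t → t ≤ lam →
  ∃ y₁ : ℕ, ∀ y₀ : ℕ, y₁ ≤ y₀ → ∃ δ₁ : ℝ, 0 < δ₁ ∧ ∀ δ : ℝ, 0 < δ → δ ≤ δ₁ → ∀ H₀ : ℝ,
  ∃ Z₀ : ℝ, ∀ Z : ℝ, Z₀ ≤ Z → ∀ (m a a' : ℕ) (g : ℕ → ℝ),
  GH (Z ^ δ) (Z ^ (1 / 8 : ℝ)) g → t * Real.log Z ≤ m → (m : ℝ) ≤ lam * Real.log Z →
  ((a' + m : ℕ) : ℝ) ≤ H₀ * Real.log Z → a + m ≤ a' →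
    ∑ n ∈ Om Z y₀, tw m y₀ K (Z ^ δ) (Z ^ (1 / 8 : ℝ)) g a n ^ 2 *
        tw m y₀ K (Z ^ δ) (Z ^ (1 / 8 : ℝ)) g a' n ^ 2 ≤
      NX Z / primorial y₀ * ((1 + η) *
        TT (Z ^ δ) (Z ^ (1 / 8 : ℝ)) g K ((1 + η) * (m * Me (Z ^ δ))) ^ 2 + η)

/-- S4. The fourth moment. -/
def T_S4 : Prop := ∀ (K y₀ : ℕ) (δ lam : ℝ), 0 < δ → δ ≤ 1 → 0 < lam → ∃ C : ℝ, 0 < C ∧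
  ∀ H₀ : ℝ, ∃ Z₀ : ℝ, ∀ Z : ℝ, Z₀ ≤ Z → ∀ (m a : ℕ) (g : ℕ → ℝ),
  (∀ b, 0 ≤ g b ∧ g b ≤ 1) → (m : ℝ) ≤ lam * Real.log Z →
  ((a + m : ℕ) : ℝ) ≤ H₀ * Real.log Z →
    ∑ n ∈ Om Z y₀, tw m y₀ K (Z ^ δ) (Z ^ (1 / 8 : ℝ)) g a n ^ 4 ≤ C * NX Z

end Pool.Agent.H82.RP
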