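import Pool.Agent.H31.MP.Targets2
import Pool.Agent.H31.MP.Targets3
import Pool.Agent.H31.MP.Targets4

/-!
# MP_76b9e7_nt: weights which repel the primes from a window

Board rpw_modules, definitions.  `I` is a finite index type, `P : I → ℕ` the positions, weights
are functions of divisor tuples `d : I → ℕ`; the tuples which matter are `1` outside a small set.
-/

set_option autoImplicit false

open Finset Real ArithmeticFunction
open scoped Nat ArithmeticFunction.Moebius

namespace Pool.Agent.H82.RP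

open Pool.Agent.H30.BV (NX)
open Pool.Agent.H31.MP (RS Rgh Pz Me Om)

/-! ## Weights on a finite index type -/

/-- the tuples of squarefree `z`-rough numbers up to `Y` -/
noncomputable def BG (I : Type) [Fintype I] [DecidableEq I] (z Y : ℝ) : Finset (I → ℕ) :=
  Fintype.piFinset fun _ => RS z Y

/-- weights `l`, bounded by `C`, supported on tuples of squarefree `z`-rough numbers with product
at most `Y`, which are `1` outside `U` -/
structure WG {I : Type} [Fintype I] [DecidableEq I] (U : Finset I) (z Y C : ℝ)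
    (l : (I → ℕ) → ℝ) : Prop where
  supp : ∀ d, l d ≠ 0 → d ∈ BG I z Y ∧ ((∏ i, d i : ℕ) : ℝ) ≤ Y ∧ ∀ i, i ∉ U → d i = 1
  bd : ∀ d, |l d| ≤ C

open Classical in
/-- the sum of the weights of the tuples `d` with `d i ∣ n + P i` for all `i` -/
noncomputable def LG {I : Type} [Fintype I] [DecidableEq I] (z Y : ℝ) (l : (I → ℕ) → ℝ)
    (P : I → ℕ) (n : ℕ) : ℝ :=
  ∑ d ∈ BG I z Y, if ∀ i, d i ∣ n + P i then l d else 0

/-- the bilinear form -/
noncomputable def QB {I : Type} [Fintype I] [DecidableEq I] (z Y : ℝ) (l l' : (I → ℕ) → ℝ) : ℝ :=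
  ∑ d ∈ BG I z Y, ∑ e ∈ BG I z Y, l d * l' e / ∏ i, (Nat.lcm (d i) (e i) : ℝ)

open Classical in
/-- the weights with the diagonal variables `y` -/
noncomputable def lG {I : Type} [Fintype I] [DecidableEq I] (z Y : ℝ) (y : (I → ℕ) → ℝ)
    (d : I → ℕ) : ℝ :=
  (∏ i, ((μ (d i) : ℤ) : ℝ) * (d i : ℝ)) *
    ∑ r ∈ BG I z Y, if ∀ i, d i ∣ r i then y r / ∏ i, ((r i).totient : ℝ) else 0

/-- the restriction to the tuples with `d j = 1` -/
noncomputable def rs {I : Type} (j : I) (l : (I → ℕ) → ℝ) (d : I → ℕ) : ℝ :=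
  if d j = 1 then l d else 0

/-- one-dimensional weights `ρ` in the variable `j` -/
noncomputable def rj {I : Type} [DecidableEq I] (j : I) (ρ : ℕ → ℝ) (l : (I → ℕ) → ℝ)
    (d : I → ℕ) : ℝ :=
  ρ (d j) * l (Function.update d j 1)

/-- the product of two weights in separate variables -/
noncomputable def ten2 {A B : Type} (l : (A → ℕ) → ℝ) (l' : (B → ℕ) → ℝ) (d : A ⊕ B → ℕ) : ℝ :=
  l (fun i => d (Sum.inl i)) * l' (fun i => d (Sum.inr i))

/-! ## Densities -/

open Classical in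
/-- the number of residue classes `a` modulo `p` with `p ∣ a + s` for some `s ∈ S` -/
noncomputable def nS (S : Finset ℕ) (p : ℕ) : ℕ :=
  ((range p).filter fun a => ∃ s ∈ S, p ∣ a + s).card

/-- the density of the sieve with the primes in `(y₀, z]` -/
noncomputable def VS (y₀ : ℕ) (z : ℝ) (S : Finset ℕ) : ℝ :=
  ∏ p ∈ Pz y₀ z, (1 - (nS S p : ℝ) / p)

/-- the numbers `n + s`, `s ∈ S`, have no prime factor in `(y₀, z]` -/
def RH (y₀ : ℕ) (z : ℝ) (S : Finset ℕ) (n : ℕ) : Prop :=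
  ∀ p ∈ Pz y₀ z, ∀ s ∈ S, ¬ p ∣ n + s

open Classical in
/-- the `n ∈ Om` such that the numbers `n + s`, `s ∈ S`, have no prime factor in `(y₀, z]` -/
noncomputable def OS (X : ℝ) (y₀ : ℕ) (z : ℝ) (S : Finset ℕ) : Finset ℕ :=
  (Om X y₀).filter (RH y₀ z S)

/-- the main term -/
noncomputable def EE (X : ℝ) (y₀ : ℕ) (z : ℝ) (S : Finset ℕ) : ℝ :=
  NX X / primorial y₀ * VS y₀ z S

/-- the singular factor of a new point `e` -/
noncomputable def RpS (y₀ : ℕ) (e : ℕ) (S : Finset ℕ) : ℝ :=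
  ∏ p ∈ (∏ s ∈ S, ((e : ℤ) - s).natAbs).primeFactors.filter (fun p => y₀ < p),
    (1 - 1 / (p : ℝ))⁻¹

/-! ## The function of one variable -/

/-- the hypotheses on the function of one variable -/
structure GH (z Y : ℝ) (g : ℕ → ℝ) : Prop where
  nn : ∀ a, 0 ≤ g a
  le : ∀ a, g a ≤ 1
  one : g 1 = 0
  supp : ∀ a : ℕ, Y ^ (1 / 4 : ℝ) < a → g a = 0
  sum : ∑ a ∈ RS z Y, g a / (a.totient : ℝ) = 1

/-- the sum of `g ^ 2 / φ` -/
noncomputable def sg (z Y : ℝ) (g : ℕ → ℝ) : ℝ := ∑ a ∈ RS z Y, g a ^ 2 / (a.totient : ℝ)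

/-- the sum of `log g ^ 2 / φ` -/
noncomputable def lg (z Y : ℝ) (g : ℕ → ℝ) : ℝ :=
  ∑ a ∈ RS z Y, Real.log a * g a ^ 2 / (a.totient : ℝ)

/-- the norm of the part with `s` particles -/
noncomputable def qq (z Y : ℝ) (g : ℕ → ℝ) (s : ℕ) : ℝ :=
  ∑ r ∈ BG (Fin s) z Y, if ((∏ i, r i : ℕ) : ℝ) ≤ Y then
    ∏ i, g (r i) ^ 2 / ((r i).totient : ℝ) else 0

/-- the bound for the tail with `s` particles -/
noncomputable def tq (z Y : ℝ) (g : ℕ → ℝ) (s : ℕ) : ℝ :=
  4 / 3 * (s * sg z Y g ^ (s - 1) * lg z Y g / Real.log Y)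

/-- the bound for the part with `s` particles at a prime -/
noncomputable def te (z Y : ℝ) (g : ℕ → ℝ) (K s : ℕ) : ℝ :=
  if s < K then tq z Y g s else sg z Y g ^ s

/-! ## The window -/

/-- the positions of the window `[a, a + m)` -/
def pw {m : ℕ} (a : ℕ) (i : Fin m) : ℕ := a + i

/-- the set of positions of `H` -/
def ps {m : ℕ} (a : ℕ) (H : Finset (Fin m)) : Finset ℕ := H.image (pw a)

/-- the positions which are possible for primes -/
noncomputable def Ad (y₀ a m : ℕ) : Finset (Fin m) :=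
  univ.filter fun i => (1 + pw a i).Coprime (primorial y₀)

/-- the sets of at most `K` positions -/
noncomputable def HS {m : ℕ} (T : Finset (Fin m)) (K : ℕ) : Finset (Finset (Fin m)) :=
  T.powerset.filter fun H => H.card ≤ K

open Classical in
/-- the diagonal variables of the set `H` -/
noncomputable def yH {m : ℕ} (Y : ℝ) (g : ℕ → ℝ) (H : Finset (Fin m)) (r : Fin m → ℕ) : ℝ :=
  if (∀ i, r i ≠ 1 ↔ i ∈ H) ∧ ((∏ i, r i : ℕ) : ℝ) ≤ Y then ∏ i ∈ H, (-g (r i)) else 0

/-- the weights of the set `H` -/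
noncomputable def LH {m : ℕ} (z Y : ℝ) (g : ℕ → ℝ) (H : Finset (Fin m)) (d : Fin m → ℕ) : ℝ :=
  lG z Y (yH Y g H) d

/-- the weights of the set `H` when there is a prime at the position `j` -/
noncomputable def LE {m : ℕ} (z Y : ℝ) (g : ℕ → ℝ) (K : ℕ) (j : Fin m) (H : Finset (Fin m))
    (d : Fin m → ℕ) : ℝ :=
  LH z Y g H d + if H.card < K then rs j (LH z Y g (insert j H)) d else 0

open Classical in
/-- the function whose square repels the primes from the window `[n + a, n + a + m)` -/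
noncomputable def tw (m y₀ K : ℕ) (z Y : ℝ) (g : ℕ → ℝ) (a n : ℕ) : ℝ :=
  ∑ H ∈ HS (Ad y₀ a m) K, if RH y₀ z (ps a H) n then LG z Y (LH z Y g H) (pw a) n else 0

/-! ## Windows with few primes -/

/-- the number of primes in the interval from `k` to `k + 1 + floor (lam * log k)` -/
noncomputable def XL (lam : ℝ) (k : ℕ) : ℕ :=
  ((Icc k (k + 1 + ⌊lam * Real.log (k : ℝ)⌋₊)).filter Nat.Prime).card

/-- the proportion of the `k` with `1 <= k <= n` for which this number is `j` -/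
noncomputable def gamL (lam : ℝ) (j n : ℕ) : ℝ :=
  ((((Icc 1 n).filter (fun k : ℕ => XL lam k = j)).card : ℕ) : ℝ) / n

/-- the count changes from `k` to `k + 1` -/
def EvL (lam : ℝ) (k : ℕ) : Prop := k.Prime ∨ (k + 2 + ⌊lam * Real.log (k : ℝ)⌋₊).Prime

end Pool.Agent.H82.RP
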