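import Pool.Agent.H82.RP.Defs

/-!
# Board rpw_modules, targets D: windows without primes, zones, conclusion
-/

set_option autoImplicit false

open Finset Real ArithmeticFunction
open scoped Nat ArithmeticFunction.Moebius

namespace Pool.Agent.H82.RP

open Pool.Agent.H30.BV (NX)
open Pool.Agent.H31.MP (RS Rgh Pz Me Om ip)

/-- MOM. The moments of the weights of the windows `[n + i m, n + (i + 1) m)`, where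
`m = floor (lam log Z)`. -/
def T_MOM : Prop := ∀ lam ε : ℝ, 0 < lam → 0 < ε → ε ≤ 1 → ∃ (y₀ : ℕ) (C : ℝ), 1 ≤ y₀ ∧ 0 < C ∧
  ∀ R : ℕ, ∃ Z₀ : ℝ, ∀ Z : ℝ, Z₀ ≤ Z → ∃ (T0 : ℝ) (T : ℕ → ℕ → ℝ), 0 < T0 ∧
    (∀ i n, 0 ≤ T i n) ∧
    (∀ i < R, (1 - ε) * (NX Z / primorial y₀ * T0) ≤ ∑ n ∈ Om Z y₀, T i n ∧
      ∑ n ∈ Om Z y₀, T i n ≤ (1 + ε) * (NX Z / primorial y₀ * T0)) ∧
    (∀ i < R, ∀ i' < R, i ≠ i' →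
      ∑ n ∈ Om Z y₀, T i n * T i' n ≤ (1 + ε) * (NX Z / primorial y₀ * T0 ^ 2)) ∧
    (∀ i < R, ∑ n ∈ Om Z y₀, T i n ^ 2 ≤ C * (NX Z / primorial y₀ * T0 ^ 2)) ∧
    ∀ i < R, ∑ n ∈ (Om Z y₀).filter (fun n : ℕ => √Z < (n : ℝ)), T i n *
        (((range ⌊lam * Real.log Z⌋₊).filter
          (fun e => (n + (i * ⌊lam * Real.log Z⌋₊ + e)).Prime)).card : ℝ) ≤
      ε * (NX Z / primorial y₀ * T0)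

open Classical in
/-- EW. Almost every interval of length `R log n` contains an empty window. -/
def T_EW : Prop := ∀ lam ε : ℝ, 0 < lam → 0 < ε → ∃ R : ℝ, 0 < R ∧ ∃ n₀ : ℕ, ∀ n : ℕ, n₀ ≤ n →
  ((((Icc 1 n).filter (fun k : ℕ => ∀ m : ℕ, k ≤ m → (m : ℝ) ≤ k + R * Real.log n →
    XL lam m ≠ 0)).card : ℕ) : ℝ) ≤ ε * n

/-- DEN. More than `j` primes with positive density (Maynard, from `T_MX`). -/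
def T_DEN : Prop := ∀ (lam : ℝ) (j : ℕ), 0 < lam → ∃ c : ℝ, 0 < c ∧ ∃ n₀ : ℕ, ∀ n : ℕ, n₀ ≤ n →
  c * n ≤ ((((Icc 1 n).filter (fun k : ℕ => j < XL lam k)).card : ℕ) : ℝ)

/-- ZPL. Pairs of primes at distances up to `A log n`. -/
def T_ZPL : Prop := ∀ A : ℝ, 0 < A → ∃ C : ℝ, 0 < C ∧ ∀ τ : ℝ, 0 < τ → τ ≤ 1 → ∃ n₀ : ℕ,
  ∀ n : ℕ, n₀ ≤ n → ∀ a : ℕ, 1 ≤ a → (a : ℝ) ≤ A * Real.log n →
    ∑ s ∈ Icc a (a + ⌊τ * Real.log n⌋₊), ∑ p ∈ range (2 * n + 1), ip p * ip (p + s) ≤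
      C * √τ * n / Real.log n

/-- ZEL. Where no two changes are close. -/
def T_ZEL : Prop := ∀ (lam : ℝ) (j k T R L : ℕ), 0 < lam → 1 ≤ T → T ≤ k →
  (∀ m ∈ Icc (k - T) (k + R + T + 1), ⌊lam * Real.log (m : ℝ)⌋₊ = L) →
  (∀ m ∈ Icc (k - T) (k + R + T), ∀ m' ∈ Icc (k - T) (k + R + T), m < m' → m' ≤ m + T →
    ¬ (EvL lam m ∧ EvL lam m')) →
  ((∃ m ∈ Icc k (k + R), XL lam m = j) →
    T / 2 ≤ ((Icc (k - T) (k + R + T)).filter (fun m => XL lam m = j)).card) ∧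
  ((∀ m ∈ Icc k (k + R), XL lam m ≠ j) →
    (∀ m ∈ Icc k (k + R), XL lam m < j) ∨ ∀ m ∈ Icc k (k + R), j < XL lam m)

open Classical in
/-- ZCL. Close changes. -/
def T_ZCL : Prop := ∀ lam : ℝ, 0 < lam → ∃ C : ℝ, 0 < C ∧ ∀ τ ε : ℝ, 0 < τ → τ ≤ 1 → 0 < ε →
  ∃ n₀ : ℕ, ∀ n : ℕ, n₀ ≤ n →
    ((((range (2 * n)).filter (fun m : ℕ => ε * n ≤ (m : ℝ) ∧ (m : ℝ) ≤ 3 / 2 * n ∧
      ∃ m' : ℕ, m < m' ∧ m' ≤ m + ⌊τ * Real.log n⌋₊ ∧ EvL lam m ∧ EvL lam m' ∧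
        ⌊lam * Real.log (m : ℝ)⌋₊ = ⌊lam * Real.log (m' : ℝ)⌋₊)).card : ℕ) : ℝ) ≤
      C * √τ * n / Real.log n

/-- ZOL. The zones of length `R log n`. -/
def T_ZOL : Prop := ∀ (lam R : ℝ) (j : ℕ) (ε : ℝ), 0 < lam → 0 < R → 0 < ε →
  ∃ c : ℝ, 0 < c ∧ ∃ n₀ : ℕ, ∀ n : ℕ, n₀ ≤ n → gamL lam j n < c →
  ∃ B : Finset ℕ, B ⊆ Icc 1 n ∧ (B.card : ℝ) ≤ ε * n ∧ ∀ k ∈ Icc 1 n, k ∉ B →
    (∀ m : ℕ, k ≤ m → (m : ℝ) ≤ k + R * Real.log n → XL lam m < j) ∨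
    (∀ m : ℕ, k ≤ m → (m : ℝ) ≤ k + R * Real.log n → j < XL lam m)

/-- FIN. The theorem. -/
def T_FIN : Prop := ∀ (lam : ℝ) (j : ℕ), 0 < lam → ∃ c : ℝ, 0 < c ∧ ∃ n₀ : ℕ, ∀ n : ℕ,
  n₀ ≤ n → c ≤ gamL lam j n

end Pool.Agent.H82.RP
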