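import Pool.Agent.H82.RP.TD

/-!
# Board rpw_modules, targets X: large gaps
-/

set_option autoImplicit false

open Finset Real

namespace Pool.Agent.H82.RP

open Classical in
/-- GAP. A positive proportion of the primes is followed by a long gap. -/
def T_GAP : Prop := ∀ lam : ℝ, 0 < lam → ∃ c : ℝ, 0 < c ∧ ∃ n₀ : ℕ, ∀ n : ℕ, n₀ ≤ n →
  c * n / Real.log n ≤ ((((Icc 1 n).filter (fun p : ℕ => p.Prime ∧
    ∀ q : ℕ, p < q → (q : ℝ) ≤ p + lam * Real.log p → ¬ q.Prime)).card : ℕ) : ℝ)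

end Pool.Agent.H82.RP
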